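import Pool.Agent.H18.Per5

/-!
Minimum of `T(M, M'; 0, 0, 1)` over connected matroid perspectives and the extremal perspectives.
-/

namespace Pool.Agent.Results.MP_321d0a_co.Full

open Finset Pool.Agent.H18.Per

theorem result :
    (∀ (α : Type) [DecidableEq α] (E : Finset α) (r r' : Finset α → ℕ) (k : ℕ),
      Persp E r r' → r E = r' E + k →
        (Conn E r r' → 2 ^ (k + 1) - 2 ≤ tutte E r r' 0 0 1) ∧
        (k = 0 → Conn E r r' → (tutte E r r' 0 0 1 = 2 ^ (k + 1) - 2 ↔ E.Nonempty)) ∧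
        (1 ≤ k → (Conn E r r' ∧ tutte E r r' 0 0 1 = 2 ^ (k + 1) - 2 ↔ Ext E r r'))) ∧
    ∀ k : ℕ, ∃ (E : Finset ℕ) (r r' : Finset ℕ → ℕ), Persp E r r' ∧ r E = r' E + k ∧
      Conn E r r' ∧ tutte E r r' 0 0 1 = 2 ^ (k + 1) - 2 := by
  have z : ∀ (α : Type) [DecidableEq α] (E : Finset α) (r r' : Finset α → ℕ), Persp E r r' →
      r E = r' E → E.Nonempty → s E r r' = 0 := fun α _ E r r' h hk hE =>
    h.s_zero (A := E) ⟨⟨subset_rfl, by simp [H18.Per.Sep, h.1.zero], by simp [H18.Per.Sep, h.2.1.zero]⟩, hE, hk⟩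
  refine ⟨fun α _ E r r' k h hk => ?_, fun k => ?_⟩
  · rw [h.tutte_eq, h.conn_iff]
    refine ⟨(h.lb k hk).2.2, fun k0 _ => ?_, fun k1 => ⟨fun ⟨a, b⟩ => ?_, fun a =>
      ⟨(a.good h k hk).1, (a.good h k hk).2.2⟩⟩⟩
    · subst k0
      refine ⟨fun a => nonempty_iff_ne_empty.2 fun b => ?_, fun a => by simpa using z α E r r' h hk a⟩
      subst b
      simp [s, h.1.zero, h.2.1.zero] at a
    · obtain ⟨k, rfl⟩ : ∃ j, k = j + 1 := ⟨k - 1, by omega⟩
      exact h.ext a k hk b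
  · have h := persp_min (range (k + 1)) k
    refine ⟨range (k + 1), _, _, h, by simp, ?_⟩
    rw [h.tutte_eq, h.conn_iff]
    rcases k.eq_zero_or_pos with rfl | k1
    · exact ⟨fun A hA ha => (subset_singleton_iff.1 hA.1).resolve_left ha.ne_empty,
        by simpa using z ℕ _ _ _ h (by simp) (by simp)⟩
    · have := (Ext.circ (E := range (k + 1)) (r := fun X => min X.card k) (r' := fun _ => 0)
        (by simp; omega) (by simp)).good h k (by simp)
      exact ⟨this.1, this.2.2⟩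

end Pool.Agent.Results.MP_321d0a_co.Full
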